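import Pool.Agent.H92.SG.Stmts

/-!
# N0T: vanishing over `ℂ⟦X⟧`
-/

namespace Pool.Agent.H2.SG

open Pool.Agent.H92.SG

section gen

variable {R : Type} [CommRing R] {m : ℕ}

/-- Extension by zero. -/
def ext0 (N : ℕ) (v : Fin N × Fin 2 → R) : ℕ → V2 R :=
  fun i p => if h : i < N then v (⟨i, h⟩, p) else 0

theorem ext0_add (N : ℕ) (v w : Fin N × Fin 2 → R) :
    ext0 N (v + w) = ext0 N v + ext0 N w := by
  funext i p
  by_cases h : i < N <;> simp [ext0, h]

theorem ext0_smul (N : ℕ) (r : R) (v : Fin N × Fin 2 → R) :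
    ext0 N (r • v) = r • ext0 N v := by
  funext i p
  by_cases h : i < N <;> simp [ext0, h]

theorem ext0_map {R' : Type} [CommRing R'] (f : R →+* R') (N : ℕ) (v : Fin N × Fin 2 → R) :
    ext0 N (fun q => f (v q)) = fun i p => f (ext0 N v i p) := by
  funext i p
  by_cases h : i < N <;> simp [ext0, h]

/-- The linear system. -/
def Lin (hA : TwA) (t : Rˣ) (e : AddChar (ZMod m) R) (N : ℕ) (l : List B) (a : ℕ → ZMod m) :
    (Fin N × Fin 2 → R) →ₗ[R] ((Fin l.length × Fin N × Fin 2) ⊕ Fin 2 → R) where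
  toFun v := Sum.elim
    (fun q => tw t e (l.get q.1) a (ext0 N v) q.2.1 q.2.2 - ext0 N v q.2.1 q.2.2)
    (fun p => ext0 N v 0 p)
  map_add' v w := by
    funext q
    rcases q with q | p
    · simp only [Sum.elim_inl, Pi.add_apply, ext0_add, hA.add]; ring
    · simp only [Sum.elim_inr, Pi.add_apply, ext0_add]
  map_smul' r v := by
    funext q
    rcases q with q | p
    · simp only [Sum.elim_inl, Pi.smul_apply, ext0_smul, hA.smul, smul_eq_mul,
        RingHom.id_apply]; ring
    · simp only [Sum.elim_inr, Pi.smul_apply, ext0_smul, RingHom.id_apply]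

theorem Lin_nat (hA : TwA) (hB : TwB) {R' : Type} [CommRing R'] (f : R →+* R') (t : Rˣ)
    (t' : R'ˣ) (e : AddChar (ZMod m) R) (e' : AddChar (ZMod m) R') (ht : f t = t')
    (he : ∀ a, f (e a) = e' a) (N : ℕ) (l : List B) (a : ℕ → ZMod m)
    (v : Fin N × Fin 2 → R) (q : (Fin l.length × Fin N × Fin 2) ⊕ Fin 2) :
    f (Lin hA t e N l a v q) = Lin hA t' e' N l a (fun q => f (v q)) q := by
  rcases q with q | p
  · change f (tw t e (l.get q.1) a (ext0 N v) q.2.1 q.2.2 - ext0 N v q.2.1 q.2.2) =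
      tw t' e' (l.get q.1) a (ext0 N fun q => f (v q)) q.2.1 q.2.2 -
        ext0 N (fun q => f (v q)) q.2.1 q.2.2
    rw [ext0_map, hB.nat R R' f m t t' e e' ht he, map_sub]
  · change f (ext0 N v 0 p) = ext0 N (fun q => f (v q)) 0 p
    rw [ext0_map]

theorem Lin_mat (hA : TwA) (hB : TwB) {R' : Type} [CommRing R'] (f : R →+* R') (t : Rˣ)
    (t' : R'ˣ) (e : AddChar (ZMod m) R) (e' : AddChar (ZMod m) R') (ht : f t = t')
    (he : ∀ a, f (e a) = e' a) (N : ℕ) (l : List B) (a : ℕ → ZMod m)
    (v : Fin N × Fin 2 → R') :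
    ((LinearMap.toMatrix' (Lin hA t e N l a)).map f).mulVec v = Lin hA t' e' N l a v := by
  have h : (LinearMap.toMatrix' (Lin hA t e N l a)).map f =
      LinearMap.toMatrix' (Lin hA t' e' N l a) := by
    ext q p
    rw [Matrix.map_apply, LinearMap.toMatrix'_apply, LinearMap.toMatrix'_apply,
      Lin_nat hA hB f t t' e e' ht he]
    refine congrArg (fun w => Lin hA t' e' N l a w q) ?_
    funext p'
    by_cases hp : p' = p
    · subst hp; simp
    · simp [hp]
  rw [h, LinearMap.toMatrix'_mulVec]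

end gen

/-- `N0T`. -/
theorem N0T_thm (hSPEC : SpecStmt) (hKER : KerStmt) (hN0R : N0RStmt) (hA : TwA) (hB : TwB) :
    N0TStmt := by
  intro k N l a hl hc _ y hy hy0 hfix
  obtain ⟨A, hcr, tA, eA, f, g, hft, hfe, hgt, hge, hfg⟩ := hKER k
  have key := hSPEC A (PowerSeries ℂ) (RatFunc (ZMod 3)) f g hfg _ _
    (LinearMap.toMatrix' (Lin hA tA eA N l a)) (by
      intro v hv
      rw [Lin_mat hA hB f tA tR eA 1 (by rw [hft]; rfl) (fun b => by rw [hfe]; simp)] at hv
      have h0 : ext0 N v = 0 := by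
        refine hN0R _ N l a hl hc (ext0 N v) ?_ ?_ ?_
        · intro i hi
          funext p
          simp [ext0, Nat.not_lt.mpr hi]
        · funext p
          exact congrFun hv (Sum.inr p)
        · intro x hx
          obtain ⟨j, rfl⟩ := List.get_of_mem hx
          funext i
          by_cases hi : i < N
          · funext p
            have := congrFun hv (Sum.inl (j, ⟨i, hi⟩, p))
            exact sub_eq_zero.mp this
          · exact hB.loc1 _ _ _ _ N _ (hl _ hx) _ _ _ (Nat.not_lt.mp hi)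
      funext q
      have := congrFun (congrFun h0 q.1) q.2
      simpa [ext0] using this)
  have hv : (fun q : Fin N × Fin 2 => y q.1 q.2) = 0 := by
    apply key
    rw [Lin_mat hA hB g tA tX eA (eX k) hgt hge]
    have hext : ext0 N (fun q : Fin N × Fin 2 => y q.1 q.2) = y := by
      funext i p
      by_cases hi : i < N
      · simp [ext0, hi]
      · simp [ext0, hi, hy i (Nat.not_lt.mp hi)]
    funext q
    rcases q with q | p
    · change tw tX (eX k) (l.get q.1) a (ext0 N (fun q : Fin N × Fin 2 => y q.1 q.2)) q.2.1 q.2.2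
        - ext0 N (fun q : Fin N × Fin 2 => y q.1 q.2) q.2.1 q.2.2 = 0
      rw [hext, hfix _ (List.get_mem _ _), sub_self]
    · change ext0 N (fun q : Fin N × Fin 2 => y q.1 q.2) 0 p = 0
      rw [hext, hy0]; rfl
  funext i
  by_cases hi : i < N
  · funext p
    exact congrFun hv (⟨i, hi⟩, p)
  · exact hy i (Nat.not_lt.mp hi)

end Pool.Agent.H2.SG
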